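import Pool.Agent.R869.WPgh
import Pool.Agent.R869.SSix
import Pool.Agent.R869.UAll

/-!
MP_5b1cbc_ag, Q1: general type and pseudo-geometric hyperbolicity for all irreducible components of
all projective varieties given by linear combinations of the powers `x_j ^ d` and of `s` further
monomials of degree `d`, in given sets of variables, for almost all choices of these monomials; for the
hypersurfaces among them (with arbitrary coefficients), a necessary and sufficient combinatorial
criterion for the existence of closed subvarieties which are not of general type with given vanishing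
coordinates, and the finiteness of the pointed maps at all points which do not lie in the corresponding
coordinate subspaces; hypersurfaces and complete intersections, of all dimensions, which are
geometrically hyperbolic with the empty exceptional set, as are all their closed subvarieties; forms
with few monomials whose exponents are far apart in the sense of lattice widths.

`TuplesIn I d`, `AlmostAllIn I P` (`Pool/Agent/R869/SDefs.lean`): the tuples of exponent vectors of
degree `d`, the `i`-th one of a monomial in the variables from `I i`; the proportion of the tuples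
with the property `P` tends to `1` for `d → ∞`. `withPowers` (`WDensDefs.lean`): the set of the
exponent vectors `a i` and of those of the `x_j ^ d`. `Loose F J` (`USharpDefs.lean`): `F` does not
have exactly one monomial in the variables from `J`, and there is a colouring of the variables with
`V ≥ 2` colours on `J` such that `N + D + 4 ≤ 2 V`, where `N` is the number of the monomials of `F` in
the variables from `J` whose variables have different colours, and `D` is the number of the colours on
`J` for which exactly one monomial of `F` in the variables from `J` has all its variables of this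
colour. `GenCoeffs F T` (`WGen.lean`): the coefficient vectors of the `m` forms `F e` at any `m`
elements of `T` are linearly independent (all coefficients are nonzero, if `m = 1`).
`WideT ∅ T N` (`WHgt.lean`): whenever at most `n` pairs of elements of the sets `T e`, in the variables
of a set `I`, are such that the sum of the segments between them has positive width in all directions,
this sum has width at least `N` in all directions. From the starting repository: `SubVar`,
`IsComponent`, `VarPts` (`Pool/Agent/W602/GT`): the closed subvarieties of `{F = 0}`, given by the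
generic point `y`, the irreducible components, the points of the subvariety; `GeneralType`, `Psef`,
`Ruled`, `Acts`: general type, pseudo-effective canonical class, birational to a product with the
projective line, actions of diagonal one-parameter groups; `PointedMaps y c x`, `PseudoGeomHyp`
(`Pool/Agent/W602/RG/TB.lean`): the morphisms to the variety which map the point `c` of the curve to
`x`; these sets are finite, for `x` outside some proper closed subset; `CurveBound`, `PseudoBounded`
(`Pool/Agent/Y216/Point.lean`, `Pool/Agent/Y221/PB/Rat.lean`): off a proper closed subset, the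
morphisms from curves of genus `g` have degree at most `B max (2 g - 2, 0)`; the morphisms from each
curve have bounded degree.
-/

set_option autoImplicit false

namespace Pool.Agent.Results.MP_5b1cbc_ag.AlmostAllMonomials

open FF MvPolynomial Pool.Agent.W602.GT Pool.Agent.R869.Wd
open Pool.Agent.W602.RG (PseudoGeomHyp PointedMaps)
open Pool.Agent.Y216 (CurveBound OnVar)
open Pool.Agent.Y221.PB (PseudoBounded)

/-- For all irreducible components `V`, of positive dimension, of `X = {F = 0}`, the following are
equivalent: `V` is of general type; `V` is pseudo-geometrically hyperbolic; the degrees of the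
morphisms from each curve to `V` are bounded off a proper closed subset; the same with a linear bound
in the genus; the canonical class of `V` is pseudo-effective; `V` is not ruled; all diagonal
one-parameter groups which act on `V` act trivially. -/
def Equivalent {k : Type} [Field k] [IsAlgClosed k] [CharZero k] {n : ℕ} {ι : Type}
    (F : ι → MvPolynomial (Fin (n + 1)) k) : Prop :=
  ∀ (K : Type) [Field K] [Algebra k K] (w : ℕ) (y : Fin (n + 1) → K), 1 ≤ w →
    SubVar F K w y → IsComponent F y →
    [GeneralType k K w, PseudoGeomHyp k y, PseudoBounded k y, CurveBound k y,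
      Psef k K w (fun _ => False), ¬ Ruled k K,
      ∀ b : Fin (n + 1) → ℤ, Acts ∅ k y b → ∀ i i', y i ≠ 0 → y i' ≠ 0 → b i = b i'].TFAE

/-- For the hypersurface `X = {F = 0}` and all sets `J` of variables, there is a closed subvariety of
`X` of positive dimension, on which exactly the coordinates outside `J` vanish identically, which is
not of general type if and only if `J` is loose for `F`; all the closed subvarieties of positive
dimension are of general type if and only if no `J` is loose for `F`; there are only finitely many
morphisms from each pointed curve to each closed subvariety `V` of `X` with the value `x` at the marked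
point if no set of variables which contains all the variables that do not vanish at `x` is loose for
`F`. -/
def LooseCriterion {k : Type} [Field k] [IsAlgClosed k] [CharZero k] {n : ℕ}
    (F : MvPolynomial (Fin (n + 1)) k) : Prop :=
  (∀ J : Finset (Fin (n + 1)), Loose F J ↔
    ∃ (K : Type) (_ : Field K) (_ : Algebra k K) (w : ℕ) (y : Fin (n + 1) → K), 1 ≤ w ∧
      SubVar (fun _ : Fin 1 => F) K w y ∧ (∀ j, y j ≠ 0 ↔ j ∈ J) ∧ ¬ GeneralType k K w) ∧
  (AllGeneralType (fun _ : Fin 1 => F) ↔ ∀ J, ¬ Loose F J) ∧
  ∀ (K : Type) [Field K] [Algebra k K] (w : ℕ) (y : Fin (n + 1) → K),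
    SubVar (fun _ : Fin 1 => F) K w y →
    ∀ (L : Type) [Field L] [Algebra k L] [IsFF k L] (c : Place k L), ∀ x ∈ VarPts k y,
      (∀ J : Finset (Fin (n + 1)), (∀ j, x j ≠ 0 → j ∈ J) → ¬ Loose F J) →
        (PointedMaps y c x).Finite

/-- Finiteness of the pointed maps from the absence of orbits. -/
theorem finite_of {n : ℕ} {k : Type} [Field k] [IsAlgClosed k] [CharZero k] {ι : Type}
    {F : ι → MvPolynomial (Fin (n + 1)) k} (hform : ∀ e, IsForm (F e)) {A : ℕ}
    (hA : HgtBound ∅ F A) {K : Type} [Field K] [Algebra k K] {w : ℕ} {y : Fin (n + 1) → K}
    (hy : SubVar F K w y) {L : Type} [Field L] [Algebra k L] [IsFF k L] (c : Place k L)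
    {x : Fin (n + 1) → k} (hx : x ∈ VarPts k y)
    (hno : ∀ (L' : Type) [Field L'] [Algebra k L'] (f : Fin (n + 1) → L'),
      (∀ j, x j ≠ 0 → f j ≠ 0) → ¬ ∃ (b : Fin (n + 1) → ℤ) (i i' : Fin (n + 1)), f i ≠ 0 ∧
        f i' ≠ 0 ∧ b i ≠ b i' ∧ ∀ e v, val f (wc b v (F e)) = 0) :
    (PointedMaps y c x).Finite := by
  classical
  let J0 : Finset (Fin (n + 1)) := Finset.univ.filter fun j => x j ≠ 0
  refine pointed_at (G := ∏ j ∈ J0, X j) ⟨_, IsHomogeneous.prod _ _ (fun _ => 1)
    fun j _ => isHomogeneous_X _ _⟩ (B := A)
    (fun L _ _ _ f hf hfG => ?_) L c x hx (by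
      unfold val
      rw [map_prod]
      refine Finset.prod_ne_zero_iff.2 fun j hj => ?_
      rw [aeval_X]
      exact (Finset.mem_filter.1 hj).2)
  have hf0 : ∀ j, x j ≠ 0 → f j ≠ 0 := by
    intro j hj
    unfold val at hfG
    rw [map_prod] at hfG
    have h2 := Finset.prod_ne_zero_iff.1 hfG j (Finset.mem_filter.2 ⟨Finset.mem_univ _, hj⟩)
    rwa [aeval_X] at h2
  have h1 := hA L ∅ f (isMap_empty ∅ hf.1 fun e => hf.2 _ (hform e) (hy.mem e)) (hno L f hf0)
  simpa using h1

/-- (1) For all `n`, `s`, all nonempty sets of variables `I 1, …, I s` and almost all tuples of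
monomials of degree `d` in `n + 1` variables, the `i`-th one in the variables from `I i`, over all
algebraically closed fields of characteristic zero: `Equivalent F` for all projective varieties given by
`m` linear combinations `F e` of these monomials and of the `x_j ^ d`; `LooseCriterion F` for all
hypersurfaces given by such a linear combination `F` (with arbitrary coefficients).

(2) If all sets of `2 m + 2` variables are among the `I i`, `m ≥ 1`, and all `I i` have at least
`m + 1` elements, then, for almost all tuples of such monomials, for all closed subvarieties `V`, of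
positive dimension, of the varieties given by `m` such linear combinations, with any `m` coefficient
vectors linearly independent: `V` is of general type, and there are finitely many morphisms from each
pointed curve to `V` with a given value at the marked point. -/
theorem result :
    (∀ (n s : ℕ) (I : Fin s → Finset (Fin (n + 1))), (∀ i, (I i).Nonempty) →
      AlmostAllIn I fun d a => ∀ (k : Type) [Field k] [IsAlgClosed k] [CharZero k],
        (∀ (m : ℕ) (F : Fin m → MvPolynomial (Fin (n + 1)) k),
          (∀ e, (F e).support ⊆ withPowers d a) → Equivalent F) ∧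
        ∀ F : MvPolynomial (Fin (n + 1)) k, F.support ⊆ withPowers d a → LooseCriterion F) ∧
    ∀ (n m s : ℕ) (I : Fin s → Finset (Fin (n + 1))), 1 ≤ m → (∀ i, m + 1 ≤ (I i).card) →
      (∀ A : Finset (Fin (n + 1)), A.card = 2 * m + 2 → ∃ i, I i = A) →
      AlmostAllIn I fun d a => ∀ (k : Type) [Field k] [IsAlgClosed k] [CharZero k]
        (F : Fin m → MvPolynomial (Fin (n + 1)) k), (∀ e, (F e).support ⊆ withPowers d a) →
        GenCoeffs F (withPowers d a) →
        ∀ (K : Type) [Field K] [Algebra k K] (w : ℕ) (y : Fin (n + 1) → K), 1 ≤ w →
          SubVar F K w y → GeneralType k K w ∧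
          ∀ (L : Type) [Field L] [Algebra k L] [IsFF k L] (c : Place k L), ∀ x ∈ VarPts k y,
            (PointedMaps y c x).Finite := by
  classical
  refine ⟨?_, ?_⟩
  · intro n s I hI
    refine almost_typI hI fun d a hty k _ _ _ => ?_
    obtain ⟨s', N, hg⟩ := hty.good
    obtain ⟨A, hA⟩ := hg.unif
    refine ⟨fun m F hFT K _ _ w y hw hy hcomp =>
      pgh_tfae (hg.sys hFT ∅) (hA k (Fin m) F hFT ∅) hw hy hcomp, fun F hF =>
      ⟨fun J => ?_, (hty.loose_general hF).symm, fun K _ _ w y hy L _ _ _ c x hx hJ => ?_⟩⟩
    · rw [hty.critSub hF (U := ∅) (J := J) fun j hj => absurd hj (Set.notMem_empty j)]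
      constructor
      · rintro ⟨K, i1, i2, w, y, hw, hy, hyJ, hgt⟩
        exact ⟨K, i1, i2, w, y, hw, subVar_iff.1 hy, hyJ, fun h3 => hgt ((general_iff y).2 h3)⟩
      · rintro ⟨K, i1, i2, w, y, hw, hy, hyJ, hgt⟩
        exact ⟨K, i1, i2, w, y, hw, subVar_iff.2 hy, hyJ, fun h3 => hgt ((general_iff y).1 h3)⟩
    · refine finite_of (hg.sys (F := fun _ : Fin 1 => F) (fun _ => hF) ∅).form
        (hA k (Fin 1) (fun _ => F) (fun _ => hF) ∅) hy c hx fun L' _ _ f hf => ?_
      rintro ⟨b, i, i', hi, hi', hb, hw⟩
      refine hJ (Finset.univ.filter fun j => f j ≠ 0) (fun j hj => Finset.mem_filter.2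
        ⟨Finset.mem_univ _, hf j hj⟩) (hty.loose_of_orbit hF (x := f) (b := b)
        (fun j => by simp) ⟨i, by simpa using hi, i', by simpa using hi', hb⟩ fun v => hw 0 v)
  · intro n m s I hm hI hall
    refine almost_typI (fun i => Finset.card_pos.1 (lt_of_lt_of_le (Nat.succ_pos m) (hI i)))
      fun d a hty k _ _ _ F hFT hgc K _ _ w y hw hy => ?_
    have hsp := spread_all hm hI hall
    obtain ⟨s', N, hg⟩ := hty.good
    obtain ⟨A, hA⟩ := hg.unif
    exact ⟨hty.all hFT hgc hsp K w y hw hy, fun L _ _ _ c x hx =>
      finite_of (hg.sys hFT ∅).form (hA k (Fin m) F hFT ∅) hy c hx fun L' _ _ f _ =>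
        hty.no_parts hFT hgc (J := Finset.univ.filter fun j => f j ≠ 0) (fun j => by simp) (hsp _)⟩

/-- **Wide systems.** Let `T e` be finitely many sets of at most `s` exponent vectors which are
`N`-wide with `N > n s (s - 1) (s - 2) / 2`. Then `Equivalent F` for all forms `F e` with exponents in
`T e` over algebraically closed fields of characteristic zero. -/
theorem wide_systems : ∀ (n s N : ℕ) (ι : Type) [Finite ι]
      (T : ι → Finset (Fin (n + 1) →₀ ℕ)), 1 ≤ s →
      (∀ e, (T e).card ≤ s) → WideT ∅ T N → n * (s * ((s - 1) * (s - 2) / 2)) < N →
      ∀ (k : Type) [Field k] [IsAlgClosed k] [CharZero k]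
        (F : ι → MvPolynomial (Fin (n + 1)) k), (∀ e, (F e).support ⊆ T e) →
        (∀ e, IsForm (F e)) → Equivalent F := by
  intro n s N ι _ T hs hT hW hN k _ _ _ F hFT hF K _ _ w y hw hy hcomp
  have hN' : s * (n * Pool.Agent.R869.tri (s - 1)) < N := by
    rw [tri_choose]
    refine lt_of_le_of_lt (le_of_eq ?_) hN
    ring
  obtain ⟨A, hA⟩ := unif ∅ T hs hT hW (cstC_lt hs hN')
  exact pgh_tfae ⟨hF, hs, fun e => (Finset.card_le_card (hFT e)).trans (hT e),
    wide_of_wideT hW hFT, hN'⟩ (hA k F hFT hF) hw hy hcomp

/-- **Geometrically hyperbolic hypersurfaces.** Let a monomial of degree `d` in the variables from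
`I` be given for each set `I` of four of the `n + 1` variables. For almost all such families of
monomials, and all hypersurfaces in projective `n`-space over algebraically closed fields of
characteristic zero given by linear combinations, with nonzero coefficients, of these monomials and
of the `x_j ^ d`, all subvarieties of positive dimension are of general type and geometrically
hyperbolic, with the empty exceptional set. -/
theorem hypersurfaces (n s : ℕ) (I : Fin s → Finset (Fin (n + 1))) (hI : ∀ i, (I i).card = 4)
    (hall : ∀ A : Finset (Fin (n + 1)), A.card = 4 → ∃ i, I i = A) :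
    AlmostAllIn I fun d a => ∀ (k : Type) [Field k] [IsAlgClosed k] [CharZero k]
      (F : MvPolynomial (Fin (n + 1)) k), F.support = withPowers d a →
      ∀ (K : Type) [Field K] [Algebra k K] (w : ℕ) (y : Fin (n + 1) → K), 1 ≤ w →
        SubVar (fun _ : Fin 1 => F) K w y → GeneralType k K w ∧
          ∀ (L : Type) [Field L] [Algebra k L] [IsFF k L] (c : Place k L), ∀ x ∈ VarPts k y,
            (PointedMaps y c x).Finite :=
  (result.2 n 1 s I le_rfl (fun i => by rw [hI]; norm_num) hall).mono
    fun _ _ _ h k _ _ _ F hF => h k (fun _ => F) (fun _ => hF.le) (genCoeffs_one hF)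

end Pool.Agent.Results.MP_5b1cbc_ag.AlmostAllMonomials
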