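import Pool.Agent.R882.HL
import Pool.Agent.R882.HPM

/-!
# Pseudo-geometrically hyperbolic images of smooth complete intersections in products of projective
lines

Let `V 0 ⇢ V 1 ⇢ ... ⇢ V k` be a tower (`LinesTower`, `Pool/Agent/R882/HL.lean`) of varieties of
dimension `n ≥ 1`, where `V k` is any uniruled variety, each `V i`, `i < k`, is a smooth complete
intersection, of any codimension `q`, of hypersurfaces of multidegrees `(d_{l,a})`, `l = 1, ..., q`,
in the product of the projective lines with the coordinates `x_a`, `a = 1, ..., n + q`, with
`Σ_l d_{l,a} = m_a + 2`, so that the canonical divisor of `V i` is `O(m_a)`, `m_a ≥ 0`, and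
`V (i + 1)` is birational to the image of `V i` under the projection which forgets one coordinate
`x_{a0}`. (If `V 0` is a smooth hypersurface then `k = 1` and `V 1` is a product of `n` projective
lines. A triangular system `F 1 (t, y 1) = 0`, ..., `F k (t, y 1, ..., y k) = 0`, where
`t = (t 1, ..., t n)`, gives a tower if the first `i` equations define a smooth complete intersection
for all `i`.) It is assumed that `s i ≤ m_a + 1` for all `a ≠ a0`, for the numbers `m_a` of `V i`,
where `s i = s / (b 0 ⋯ b (i - 1))` and `b i` is the degree of `V i` over `V (i + 1)`; nothing is
assumed about `m_{a0}`.

Let `V 0 ⇢ X` be any dominant rational map of degree `r` to a projective variety `X` over `ℂ`, smooth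
or not, where the above holds for `s = 2 r`; nothing is assumed about the map (it need not be a
quotient by a group and has no relation to the tower). The theorem: if `X` is pseudo-geometrically
hyperbolic, then `X` is of general type, as conjectured by Lang. It is also of general type if it is
pseudo-bounded: off a proper closed subset of `X`, the degrees of the morphisms from each curve to
`X` are bounded. In fact `X` is either of general type or uniruled.

Proof: if `X` is not of general type and `V i ⇢ X` is a rational map then it factors through
`V i ⇢ V (i + 1)`, because the traces to `X` of the forms `A x_{a0} ^ j Res`, where `Res` is the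
residue form on `V i` and `A` is a polynomial in the other coordinates, do not separate the general
points of `X`. So
`X` is dominated by `V k`, and it is uniruled;
and there are infinitely many morphisms from a pointed line to a uniruled variety with a given
general value.

`K` and `L` are the function fields of `V 0` and `X`, and `x` is the generic point of `X`, in
homogeneous coordinates: `coords ℂ x` is the field generated by their ratios. `PseudoGeomHyp`
(`Pool/Agent/W602/RG/TB.lean`): off a proper closed subset of `X`, for every pointed curve there are
finitely many morphisms to `X` with a given value at the marked point. `PseudoBounded`: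
`Pool/Agent/R882/HP.lean`.
-/

set_option autoImplicit false
set_option linter.overlappingInstances false

open FF Module Pool.Agent.W602.GT
open Pool.Agent.W619.PQ (IsUniruled)
open Pool.Agent.W602.RG (PseudoGeomHyp)
open Pool.Agent.R882.HL (LinesTower)
open Pool.Agent.R882.HY (PseudoBounded)

namespace Pool.Agent.Results.MP_5b1cbc_ag.PointedLines

/-- **Pseudo-geometrically hyperbolic images of complete intersections in products of lines.** Let `K`
be the function field of the first variety `V` of a tower of smooth complete intersections of
dimension `n ≥ 1` in products of projective lines over a uniruled variety, of height `2 r`, and let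
`V ⇢ X` be a dominant rational map of degree `r` to a projective variety `X` with function field `L`
and generic point `x`. Then `X` is of general type if and only if it is not uniruled, and `X` is of
general type if it is pseudo-geometrically hyperbolic, or if the degrees of the morphisms from each
curve to `X` are bounded off a proper closed subset of `X`. -/
theorem result {n : ℕ} (hn : 1 ≤ n) {K : Type} [Field K] [Algebra ℂ K]
    (hK : Algebra.trdeg ℂ K = (n : ℕ))
    (L : Type) [Field L] [Algebra ℂ L] [Algebra L K] [IsScalarTower ℂ L K]
    [FiniteDimensional L K]
    (h : LinesTower n (fun E _ _ => IsUniruled ℂ E n) K (2 * Module.finrank L K))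
    {M : ℕ} {x : Fin (M + 1) → L} (hx : x ≠ 0) (hgen : coords ℂ x = ⊤) :
    (GeneralType ℂ L n ↔ ¬ IsUniruled ℂ L n) ∧
    (PseudoGeomHyp ℂ x → GeneralType ℂ L n) ∧
    (PseudoBounded ℂ x → GeneralType ℂ L n) :=
  Pool.Agent.R882.HY.pointed_of_dichotomy (Pool.Agent.Y184.NT.trdeg_below (K := K) hK)
    (Pool.Agent.R882.HL.dichotomy hn (Pool.Agent.R882.HT.descends_uniruled n) hK L h) hx hgen

end Pool.Agent.Results.MP_5b1cbc_ag.PointedLines
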