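import Pool.Agent.R871.SG.AlgE

/-!
MP_5b1cbc_ag, Q1: pseudo-geometrically hyperbolic projective varieties and pointed holomorphic maps of
slow growth.
-/

set_option autoImplicit false

namespace Pool.Agent.Results.MP_5b1cbc_ag.PointedSlowMaps

open Pool.Agent.R871.SG MvPolynomial

/-- Let `C` be an irreducible affine variety in `ℂᵖ` (for instance a smooth affine curve), given by the
prime ideal `I`, and let `X = {F = 0}` be a projective variety in `ℙⁿ`, all over the complex numbers.
Let `c₀` be a point of `ℂᵖ` (for instance of `C`) and let `x ≠ 0` be homogeneous coordinates of a point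
of `ℙⁿ`. There is a function `φ` with `φ r / log r → ∞` for `r → ∞` such that the following holds for
every finite set `S` of families of polynomials.

If every algebraic map `C → X` with `c₀ ↦ x` (given by homogeneous coordinates which are polynomials,
with values proportional to `x` and not zero at `c₀`) coincides on `C` with one of the maps in `S`,
then every holomorphic map `C → X` with `c₀ ↦ x`, given by homogeneous coordinates which are
restrictions of an entire map `f : ℂᵖ → ℂⁿ⁺¹` such that `log ‖f z‖ ≤ φ r` for all `z` with `‖z‖ ≤ r`,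
for arbitrarily large `r`, coincides on `C` with one of the maps in `S`. -/
theorem result {p n : ℕ} {ι : Type} (I : Ideal (MvPolynomial (Fin p) ℂ)) [I.IsPrime]
    (F : ι → MvPolynomial (Fin (n + 1)) ℂ) (_hF : ∀ i, ∃ e, (F i).IsHomogeneous e)
    (c₀ : Fin p → ℂ) {x : Fin (n + 1) → ℂ} (hx : x ≠ 0) : ∃ φ : ℝ → ℝ, Grows φ ∧
      ∀ S : Set (Fin (n + 1) → MvPolynomial (Fin p) ℂ), S.Finite →
        (∀ P : Fin (n + 1) → MvPolynomial (Fin p) ℂ, HolOn I F (mv P) →
          (∃ c : ℂ, c ≠ 0 ∧ mv P c₀ = c • x) → ∃ Q ∈ S, SameOn I (mv P) (mv Q)) →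
        ∀ f, HolOn I F f → SlowM φ f → (∃ c : ℂ, c ≠ 0 ∧ f c₀ = c • x) →
          ∃ Q ∈ S, SameOn I f (mv Q) :=
  pointed_proj I F c₀ hx

end Pool.Agent.Results.MP_5b1cbc_ag.PointedSlowMaps
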