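import Pool.Agent.R882.HT
import Pool.Agent.R882.HPM

/-!
# Pseudo-geometrically hyperbolic images of towers of nondegenerate complete intersections

A tower (`Tower`, `Pool/Agent/R882/HT.lean`) is a sequence of generically finite maps
`V 0 ⇢ V 1 ⇢ ... ⇢ V k` of varieties of dimension `n ≥ 1`, where `V k` is any uniruled variety and
each `V i`, `i < k`, is a component of the set of common zeros in a torus `(ℂ^*) ^ (n + q)` of a
system `f` of Laurent polynomials which is nondegenerate in the sense of Khovanskii, with arbitrary
Newton polytopes, and `V (i + 1)` is birational to the image of `V i` under monomials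
`t l = x ^ (w l)`, where `ℂ(V i) = ℂ(V (i + 1))(y)` for a monomial `y = x ^ v`. (Typical towers are
given by triangular systems `f 1 (t, y 1) = 0`, `f 2 (t, y 1, y 2) = 0`, ...,
`f k (t, y 1, ..., y k) = 0`; then `V k` is the torus.) Let `b i` be the degree of `V i` over
`V (i + 1)`. It is assumed that there are columns for `s i = s / (b 0 ⋯ b (i - 1))` in the Fine
interior of the Newton polytopes of `V i`: for each divisor `c < b i` of `b i` an `M` with
`s i ≤ c (M + 1)` such that the `u + j v` and the `u + j v + M w l` are in the Fine interior for all
`j < c`. (If `b i` is a prime number: `u` and the `u + (s i - 1) w l` are in the Fine interior.)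

Let `V 0 ⇢ X` be any dominant rational map of degree `r` to a projective variety `X` over `ℂ`, smooth
or not, where there are columns for `s = 2 r`; nothing is assumed about the map (it need not be a
quotient by a group and has no relation to the tower). The theorem: if `X` is pseudo-geometrically
hyperbolic, then `X` is of general type, as conjectured by Lang. It is also of general type if it is
pseudo-bounded: off a proper closed subset of `X`, the degrees of the morphisms from each curve to
`X` are bounded. In fact `X` is either of general type or uniruled.

Proof: if `X` is not of general type and `V i ⇢ X` is a rational map then it factors through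
`V i ⇢ V (i + 1)`, because the traces to `X` of the forms `A(t) x ^ u y ^ j Res`, where `Res` is the
residue form on `V i` and `A` has degree at most `M`, do not separate the general points of `X`. So
`X` is dominated by `V k`, and it is uniruled; and there are infinitely many morphisms from a pointed
line to a uniruled variety with a given general value.

`K` and `L` are the function fields of `V 0` and `X`, and `x` is the generic point of `X`, in
homogeneous coordinates: `coords ℂ x` is the field generated by their ratios. `PseudoGeomHyp`
(`Pool/Agent/W602/RG/TB.lean`): off a proper closed subset of `X`, for every pointed curve there are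
finitely many morphisms to `X` with a given value at the marked point. `PseudoBounded`:
`Pool/Agent/R882/HP.lean`.
-/

set_option autoImplicit false
set_option linter.overlappingInstances false

open FF Module Pool.Agent.W602.GT
open Pool.Agent.W619.PQ (IsUniruled)
open Pool.Agent.W602.RG (PseudoGeomHyp)
open Pool.Agent.R882.HT (Tower)
open Pool.Agent.R882.HY (PseudoBounded)

namespace Pool.Agent.Results.MP_5b1cbc_ag.PointedTowers

/-- **Pseudo-geometrically hyperbolic images of towers.** Let `K` be the function field of the first
variety `V` of a tower of varieties of dimension `n ≥ 1` over a uniruled variety, with columns for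
`2 r`, and let `V ⇢ X` be a dominant rational map of degree `r` to a projective variety `X` with
function field `L` and generic point `x`. Then `X` is of general type if and only if it is not
uniruled, and `X` is of general type if it is pseudo-geometrically hyperbolic, or if the degrees of
the morphisms from each curve to `X` are bounded off a proper closed subset of `X`. -/
theorem result {n : ℕ} (hn : 1 ≤ n) {K : Type} [Field K] [Algebra ℂ K]
    (hK : Algebra.trdeg ℂ K = (n : ℕ))
    (L : Type) [Field L] [Algebra ℂ L] [Algebra L K] [IsScalarTower ℂ L K]
    [FiniteDimensional L K]
    (h : Tower n (fun E _ _ => IsUniruled ℂ E n) K (2 * Module.finrank L K))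
    {M : ℕ} {x : Fin (M + 1) → L} (hx : x ≠ 0) (hgen : coords ℂ x = ⊤) :
    (GeneralType ℂ L n ↔ ¬ IsUniruled ℂ L n) ∧
    (PseudoGeomHyp ℂ x → GeneralType ℂ L n) ∧
    (PseudoBounded ℂ x → GeneralType ℂ L n) :=
  Pool.Agent.R882.HY.pointed_of_dichotomy (Pool.Agent.Y184.NT.trdeg_below (K := K) hK)
    (Pool.Agent.R882.HT.dichotomy hn (Pool.Agent.R882.HT.descends_uniruled n) hK L h) hx hgen

end Pool.Agent.Results.MP_5b1cbc_ag.PointedTowers
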